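import Pool.Agent.D0H48.BM.Un

/-!
# All residue classes modulo the denominators of all good rational approximations of almost every point

For almost every `α ∈ ℝ^d` the primes are well distributed in ALL residue classes modulo ALL large denominators `q` of good
simultaneous rational approximations `a / q` of `α`, `q |q α_i - a_i| ^ d ≤ log ^ B q`: for all `x ≥ q` the error is at most
`(√x + x^(5/6) / q) log ^ K x` plus `x / q` times the smaller one of `1 / log ^ A x` and `log ^ K x / P(q)`, where `P(q)` is
the least prime factor of `q`. For prime denominators this is `(√x + x^(5/6) / q + x / q^2) log ^ K x`, the bound known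
under the generalized Riemann hypothesis for `x ≤ q^3`, up to a power of the logarithm. For `d = 1` these are the
denominators of the convergents of `α`, and many more. The exceptional set is a null set even for the generalized
Hausdorff measures with the gauges `r ^ d log ^ M (1 / r)`.

Proof. The moduli `q` for which this fails, for some `x` and some class, are rare: for every `M` there is `K` such that the
sum of `log ^ M q / q` over them converges. This follows from the theorem of Bombieri and Vinogradov (with the sharp level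
and free heights, from the starting files), and from Vaughan's mean value theorem for the maxima over the heights
`h ≤ Y` of the `|ψ(h, χ)|`, summed over all primitive characters with conductor in `(D, 2D]`, which is proved here.
Hence the sum of the `r ^ d log ^ M (1 / r)` over the cubes, with radius `r`, of the `α` which have good approximations
with these denominators converges.
-/

set_option autoImplicit false

open Filter Topology Finset MeasureTheory
open scoped ENNReal

namespace Pool.Agent.Results.MP_9cfc0a_nt.DenominatorsAllClasses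

/-- `ψ(x; q, b)`: the sum of `Λ(n)` over `n ≤ x`, `n ≡ b (mod q)`. -/
noncomputable def psi (x : ℝ) (q b : ℕ) : ℝ :=
  ∑ n ∈ (Icc 1 ⌊x⌋₊).filter (fun n => n ≡ b [MOD q]), ArithmeticFunction.vonMangoldt n

/-- `ψ(x)`: the sum of `Λ(n)` over `n ≤ x`. -/
noncomputable def psiAll (x : ℝ) : ℝ := ∑ n ∈ Icc 1 ⌊x⌋₊, ArithmeticFunction.vonMangoldt n

/-- The primes are well distributed in all residue classes modulo `q`, for all `x ≥ q`; `q.minFac` is the least prime
factor of `q`. -/
def Regular (A K q : ℕ) : Prop :=
  ∀ x : ℝ, (q : ℝ) ≤ x → ∀ y : ℝ, 0 ≤ y → y ≤ x → ∀ b : ℕ, b.Coprime q →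
    |psi y q b - psiAll y / Nat.totient q| ≤
      (x ^ (1 / 2 : ℝ) + x ^ (5 / 6 : ℝ) / q) * Real.log x ^ K +
        x / q * min (1 / Real.log x ^ A) (Real.log x ^ K / q.minFac)

/-- The large denominators of all the approximations `a / q` of `α` with `q |q α_i - a_i| ^ d ≤ log ^ B q` are
regular. -/
def AllApproximations {d : ℕ} (K : ℕ → ℕ → ℕ) (α : Fin d → ℝ) : Prop :=
  ∀ A B : ℕ, ∃ Q : ℕ, ∀ (q : ℕ) (a : Fin d → ℤ), Q ≤ q → (∀ i, (q : ℝ) * |q * α i - a i| ^ d ≤ Real.log q ^ B) →
    Regular A (K A B) q

theorem result (d : ℕ) (hd : 1 ≤ d) (M : ℕ) : ∃ K : ℕ → ℕ → ℕ, (∀ᵐ α : Fin d → ℝ, AllApproximations K α) ∧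
    ∀ m : ℝ≥0∞ → ℝ≥0∞, Monotone m → ∀ C : ℝ,
      (∀ r : ℝ, 0 < r → r ≤ 1 / 2 → m (ENNReal.ofReal r) ≤ ENNReal.ofReal (C * (r ^ d * Real.log (1 / r) ^ M))) →
      Measure.mkMetric m {α : Fin d → ℝ | ¬ AllApproximations K α} = 0 := by
  obtain ⟨K, hK⟩ := Pool.Agent.D0H48.BM.exponents4 M
  refine ⟨K, ?_, fun m hm C hC => Pool.Agent.D0H48.BM.final_null hd M K hK m hm C hC⟩
  rw [ae_iff]
  exact Pool.Agent.D0H48.BM.final_vol hd M K hK

end Pool.Agent.Results.MP_9cfc0a_nt.DenominatorsAllClasses
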