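import Pool.Agent.D0H44.KC.MainC
import Pool.Agent.D0H12.KC.Dx
import Pool.Agent.D0H12.EC.Sm2
import Pool.Agent.D0H35.KC.Aq
import Pool.Agent.D0H35.KC.Pp
import Pool.Agent.D0H42.KC.PX
import Pool.Agent.D0H51.FR.PS
import Pool.Agent.D0H52.KC.Gs
import Pool.Agent.D0H52.KC.Sw
import Pool.Agent.D0H70.KC.Ex
import Pool.Agent.D0H81.FR.WT
import Pool.Agent.D0H81.KC.C1

/-! Every primitive character to almost every modulus `q ≤ x ^ (1/2 - ε)`: `ψ(u, χ)` is large in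
mean square over `u ∈ [x, 2 x]`. -/

open Finset MeasureTheory

namespace Pool.Agent.Results.MP_9cfc0a_nt.EveryCharacter

/-- `ψ(x, χ)`: the sum of `Λ(n) χ(n)` over `n ≤ x` -/
noncomputable def psi (x : ℝ) {q : ℕ} (χ : DirichletCharacter ℂ q) : ℂ :=
  ∑ n ∈ Icc 1 ⌊x⌋₊, ((ArithmeticFunction.vonMangoldt n : ℝ) : ℂ) * χ (n : ZMod q)

/-- For every `ε > 0` and every `A` there is `x₀` such that for all real `x ≥ x₀` and all integers
`1 ≤ Q ≤ x ^ (1/2 - ε)` there is a set `E` of at most `Q / (log x) ^ A` moduli such that for all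
`q ∈ (Q, 2 Q]` outside `E` and ALL primitive characters `χ` modulo `q`:

(i) the mean square of `ψ(u, χ)` over `u ∈ [x, 2 x]` is at least `x ^ (1/3 - ε) * Q ^ (1/3)`;

(ii) there is `u ∈ [x, 2 x]` with `|ψ(u, χ)| ≥ x ^ (1/6 - ε) * q ^ (1/6)`. -/
theorem result : ∀ ε : ℝ, 0 < ε → ∀ A : ℕ, ∃ x₀ : ℝ, ∀ x : ℝ, x₀ ≤ x → ∀ Q : ℕ, 1 ≤ Q →
    (Q : ℝ) ≤ x ^ (1 / 2 - ε) → ∃ E : Finset ℕ, (E.card : ℝ) ≤ Q / Real.log x ^ A ∧
      ∀ q : ℕ, Q < q → q ≤ 2 * Q → q ∉ E → ∀ χ : DirichletCharacter ℂ q, χ.IsPrimitive →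
      (x ^ (1 / 3 - ε) * (Q : ℝ) ^ (1 / 3 : ℝ) ≤ 1 / x * ∫ u in x..(2 * x), ‖psi u χ‖ ^ 2) ∧
      ∃ u ∈ Set.Icc x (2 * x), x ^ (1 / 6 - ε) * (q : ℝ) ^ (1 / 6 : ℝ) ≤ ‖psi u χ‖ := by
  intro ε hε A
  have hW := Pool.Agent.D0H81.FR.t_W
  obtain ⟨x₀, hx₀, h⟩ := D0H44.KC.mainC hW Pool.Agent.D0H51.FR.t_PS
    Pool.Agent.D0H51.FR.t_IS (Pool.Agent.D0H42.KC.t_PX hW) (Pool.Agent.D0H12.KC.t_DX hW)
    (Pool.Agent.D0H70.KC.t_EX hW Pool.Agent.D0H52.KC.t_GS) (Pool.Agent.D0H81.KC.t_C1 hW)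
    (Pool.Agent.D0H81.KC.t_C2 hW) Pool.Agent.D0H52.KC.t_SW Pool.Agent.D0H35.KC.t_AQ
    (Pool.Agent.D0H35.KC.t_PP hW) Pool.Agent.D0H12.EC.t_SM2 ε hε A
  refine ⟨x₀, fun x hx Q hQ hQx => ?_⟩
  obtain ⟨E, hE1, hE2⟩ := h x hx Q hQ hQx
  have hx100 : 100 ≤ x := hx₀.trans hx
  have hx0 : 0 < x := by linarith
  have hl0 : 0 < Real.log x := Real.log_pos (by linarith)
  refine ⟨E, ?_, fun q hq1 hq2 hqE χ hχ => ?_⟩
  · rw [le_div_iff₀ (by positivity)]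
    exact hE1
  have hQ0 : (1 : ℝ) ≤ Q := by exact_mod_cast hQ
  have hQpos : (0 : ℝ) < Q := by linarith
  have hV : ∫ u in x..(2 * x), ‖psi u χ‖ ^ 2 =
      ∫ u in x..(2 * x), ‖D0H44.KC.pc q χ u‖ ^ 2 := rfl
  have h1 := hE2 q hq1 hq2 hqE χ hχ
  rw [hV]
  set V := ∫ u in x..(2 * x), ‖D0H44.KC.pc q χ u‖ ^ 2 with hVd
  set c := x ^ (1 / 3 - ε) * (Q : ℝ) ^ (1 / 3 : ℝ) with hc
  have hc0 : 0 < c := by rw [hc]; positivity
  refine ⟨?_, ?_⟩
  · rw [div_mul_eq_mul_div, one_mul, le_div_iff₀ hx0]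
    have : 0 < c * x := by positivity
    linarith
  · by_contra hcon
    push Not at hcon
    have h2 : ‖V‖ ≤ (3 / 2 * c) * |2 * x - x| := by
      rw [hVd]
      apply intervalIntegral.norm_integral_le_of_norm_le_const
      intro u hu
      rw [Set.uIoc_of_le (by linarith)] at hu
      have h3 : ‖D0H44.KC.pc q χ u‖ ≤ x ^ (1 / 6 - ε) * (q : ℝ) ^ (1 / 6 : ℝ) :=
        (hcon u ⟨hu.1.le, hu.2⟩).le
      rw [Real.norm_eq_abs, abs_of_nonneg (by positivity)]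
      have hqQ : (q : ℝ) ≤ 2 * Q := by exact_mod_cast hq2
      have hq0 : (0 : ℝ) ≤ q := Nat.cast_nonneg q
      calc ‖D0H44.KC.pc q χ u‖ ^ 2 ≤ (x ^ (1 / 6 - ε) * (q : ℝ) ^ (1 / 6 : ℝ)) ^ 2 := by gcongr
        _ ≤ (x ^ (1 / 6 - ε) * (2 * (Q : ℝ)) ^ (1 / 6 : ℝ)) ^ 2 := by gcongr
        _ = x ^ (1 / 3 - 2 * ε) * ((2 : ℝ) ^ (1 / 3 : ℝ) * (Q : ℝ) ^ (1 / 3 : ℝ)) := by
            rw [mul_pow, ← Real.mul_rpow (by norm_num) hQpos.le]
            congr 1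
            · rw [← Real.rpow_natCast, ← Real.rpow_mul hx0.le]
              congr 1
              push_cast
              ring
            · rw [← Real.rpow_natCast, ← Real.rpow_mul (by positivity)]
              congr 1
              norm_num
        _ ≤ x ^ (1 / 3 - ε) * (3 / 2 * (Q : ℝ) ^ (1 / 3 : ℝ)) := by
            have k1 : (2 : ℝ) ^ (1 / 3 : ℝ) ≤ 3 / 2 := by
              have e1 : ((2 : ℝ) ^ (1 / 3 : ℝ)) ^ 3 = 2 := by
                rw [← Real.rpow_natCast, ← Real.rpow_mul (by norm_num)]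
                norm_num
              by_contra hcc
              push Not at hcc
              have : (3 / 2 : ℝ) ^ 3 < ((2 : ℝ) ^ (1 / 3 : ℝ)) ^ 3 := by gcongr
              rw [e1] at this
              norm_num at this
            have k2 : x ^ (1 / 3 - 2 * ε) ≤ x ^ (1 / 3 - ε) :=
              Real.rpow_le_rpow_of_exponent_le (by linarith) (by linarith)
            gcongr
        _ = 3 / 2 * c := by
            rw [hc]
            ring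
    have h8 : |2 * x - x| = x := by
      rw [show 2 * x - x = x by ring, abs_of_pos hx0]
    rw [h8] at h2
    have h9 := (le_abs_self V).trans h2
    have : 0 < c * x := by positivity
    linarith

end Pool.Agent.Results.MP_9cfc0a_nt.EveryCharacter
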