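import Pool.Agent.D0H44.EC.MainA
import Pool.Agent.D0H12.EC.Cg
import Pool.Agent.D0H12.EC.Du
import Pool.Agent.D0H12.EC.Sm2
import Pool.Agent.D0H28.EC.CQ
import Pool.Agent.D0H42.EC.OI
import Pool.Agent.D0H42.EC.PD
import Pool.Agent.D0H42.EC.PH
import Pool.Agent.D0H51.FR.IB
import Pool.Agent.D0H51.FR.PS
import Pool.Agent.D0H81.FR.WT

/-! No residue class is exceptionally good: for almost all moduli `q ≤ x ^ (1/2 - ε)` the error term
`ψ(u; q, a) - u / φ(q)` is large in mean square on `[x, 2 x]` for EVERY reduced class `a`. -/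

open Finset MeasureTheory

namespace Pool.Agent.Results.MP_9cfc0a_nt.EveryClass

/-- `ψ(x; q, a)`: the sum of `Λ(n)` over `n ≤ x`, `n ≡ a (mod q)` -/
noncomputable def psi (x : ℝ) (q a : ℕ) : ℝ :=
  ∑ n ∈ (Icc 1 ⌊x⌋₊).filter (fun n => n ≡ a [MOD q]), ArithmeticFunction.vonMangoldt n

/-- For every `ε > 0` there are `δ > 0` and `x₀` such that for all real `x ≥ x₀` and all integers
`1 ≤ Q ≤ x ^ (1/2 - ε)` there is a set `E` of at most `Q x ^ (-δ)` moduli such that for all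
`q ∈ (Q, 2 Q]` outside `E` and ALL integers `a` coprime to `q`:

(i) the mean square of `ψ(u; q, a) - u / φ(q)` over `u ∈ [x, 2 x]` is at least
`x ^ (1/3 - ε) / Q ^ (2/3)`;

(ii) there is `u ∈ [x, 2 x]` with `|ψ(u; q, a) - u / φ(q)| ≥ x ^ (1/6 - ε) / q ^ (1/3)`. -/
theorem result : ∀ ε : ℝ, 0 < ε → ∃ δ x₀ : ℝ, 0 < δ ∧ ∀ x : ℝ, x₀ ≤ x → ∀ Q : ℕ, 1 ≤ Q →
    (Q : ℝ) ≤ x ^ (1 / 2 - ε) → ∃ E : Finset ℕ, (E.card : ℝ) ≤ Q * x ^ (-δ) ∧
      ∀ q : ℕ, Q < q → q ≤ 2 * Q → q ∉ E → ∀ a : ℕ, a.Coprime q →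
      (x ^ (1 / 3 - ε) / (Q : ℝ) ^ (2 / 3 : ℝ) ≤
        1 / x * ∫ u in x..(2 * x), (psi u q a - u / (Nat.totient q : ℝ)) ^ 2) ∧
      ∃ u ∈ Set.Icc x (2 * x), x ^ (1 / 6 - ε) / (q : ℝ) ^ (1 / 3 : ℝ) ≤
        |psi u q a - u / (Nat.totient q : ℝ)| := by
  intro ε hε
  have hW := Pool.Agent.D0H81.FR.t_W
  obtain ⟨δ, x₀, hδ, hx₀, h⟩ := D0H44.EC.mainA hW Pool.Agent.D0H51.FR.t_PS
    Pool.Agent.D0H51.FR.t_IS (Pool.Agent.D0H42.EC.t_PD hW) (Pool.Agent.D0H42.EC.t_OI hW)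
    Pool.Agent.D0H42.EC.t_PH (Pool.Agent.D0H12.EC.t_CG hW) (Pool.Agent.D0H12.EC.t_DU hW)
    (Pool.Agent.D0H51.FR.t_IB hW) (Pool.Agent.D0H51.FR.t_CS hW)
    (Pool.Agent.D0H28.EC.CQ.t_CQ hW) Pool.Agent.D0H12.EC.t_SM2 ε hε
  refine ⟨δ, x₀, hδ, fun x hx Q hQ hQx => ?_⟩
  obtain ⟨E, hE1, hE2⟩ := h x hx Q hQ hQx
  refine ⟨E, hE1, fun q hq1 hq2 hqE a ha => ?_⟩
  have hx100 : 100 ≤ x := hx₀.trans hx
  have hx0 : 0 < x := by linarith
  have hQ0 : (1 : ℝ) ≤ Q := by exact_mod_cast hQ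
  have hQpos : (0 : ℝ) < Q := by linarith
  have hV : ∫ u in x..(2 * x), (psi u q a - u / (Nat.totient q : ℝ)) ^ 2 =
      ∫ u in x..(2 * x), D0H44.EM.Er q a u ^ 2 := rfl
  have h1 := hE2 q hq1 hq2 hqE a ha
  rw [hV]
  set V := ∫ u in x..(2 * x), D0H44.EM.Er q a u ^ 2 with hVd
  set c := x ^ (1 / 3 - ε) / (Q : ℝ) ^ (2 / 3 : ℝ) with hc
  have hc0 : 0 < c := by rw [hc]; positivity
  refine ⟨?_, ?_⟩
  · rw [div_mul_eq_mul_div, one_mul, le_div_iff₀ hx0]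
    have : 0 < c * x := by positivity
    linarith
  · by_contra hcon
    push Not at hcon
    have h2 : ‖V‖ ≤ c * |2 * x - x| := by
      rw [hVd]
      apply intervalIntegral.norm_integral_le_of_norm_le_const
      intro u hu
      rw [Set.uIoc_of_le (by linarith)] at hu
      have h3 : |D0H44.EM.Er q a u| ≤ x ^ (1 / 6 - ε) / (q : ℝ) ^ (1 / 3 : ℝ) :=
        (hcon u ⟨hu.1.le, hu.2⟩).le
      rw [Real.norm_eq_abs, abs_pow]
      have hqQ : (Q : ℝ) ≤ q := by exact_mod_cast hq1.le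
      calc |D0H44.EM.Er q a u| ^ 2 ≤ (x ^ (1 / 6 - ε) / (q : ℝ) ^ (1 / 3 : ℝ)) ^ 2 := by gcongr
        _ ≤ (x ^ (1 / 6 - ε) / (Q : ℝ) ^ (1 / 3 : ℝ)) ^ 2 := by gcongr
        _ = x ^ (1 / 3 - 2 * ε) / (Q : ℝ) ^ (2 / 3 : ℝ) := by
            rw [div_pow]
            congr 1
            · rw [← Real.rpow_natCast, ← Real.rpow_mul hx0.le]
              congr 1
              push_cast
              ring
            · rw [← Real.rpow_natCast, ← Real.rpow_mul hQpos.le]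
              congr 1
              norm_num
        _ ≤ c := by
            rw [hc]
            gcongr
            · linarith
            · linarith
    have h8 : |2 * x - x| = x := by
      rw [show 2 * x - x = x by ring, abs_of_pos hx0]
    rw [h8] at h2
    have h9 := (le_abs_self V).trans h2
    have : 0 < c * x := by positivity
    linarith

end Pool.Agent.Results.MP_9cfc0a_nt.EveryClass
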