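import Pool.Agent.D0H44.MW.Bd
import Pool.Agent.D0H44.MW.Pt
import Pool.Agent.D0H52.MW.Sv
import Pool.Agent.D0H52.MW.Pb
import Pool.Agent.D0H13.MW.Dg
import Pool.Agent.D0H13.MW.Win
import Pool.Agent.D0H13.MW.Phi
import Pool.Agent.D0H98.MW.Cut
import Pool.Agent.D0H98.MW.Tl
import Pool.Agent.D0H98.MW.One
import Pool.Agent.D0H15.MW.Lb
import Pool.Agent.D0H65.MW.Rem

/-!
# Primes in arithmetic progressions: lower bounds of the conjectured size for every prime modulus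

Unconditionally, for every large prime `q` and every `x` with `q² ≤ x ≤ q^B`, the mean square over the window
`[x, x q^{1+ε}]` of the error terms `ψ(u; q, a) - u/φ(q)` is at least `c log² q`; the same holds for
all but `δ φ(q)` of the even characters individually.
-/

set_option autoImplicit false

namespace Pool.Agent.Results.MP_9cfc0a_nt.EveryPrimeModulus

open MeasureTheory

/-- `ψ(x; q, a)`: the sum of `Λ(n)` over `n ≤ x`, `n ≡ a (mod q)`. -/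
noncomputable def psi (x : ℝ) (q a : ℕ) : ℝ :=
  ∑ n ∈ (Finset.Icc 1 ⌊x⌋₊).filter (fun n => n ≡ a [MOD q]), ArithmeticFunction.vonMangoldt n

/-- `ψ(x, χ)`: the sum of `Λ(n) χ(n)` over `n ≤ x`. -/
noncomputable def psiChar {q : ℕ} (χ : DirichletCharacter ℂ q) (x : ℝ) : ℂ :=
  ∑ n ∈ Finset.Icc 1 ⌊x⌋₊, (ArithmeticFunction.vonMangoldt n : ℂ) * χ (n : ZMod q)

theorem result :
    (∀ B ε : ℝ, 2 ≤ B → 0 < ε → ∃ c : ℝ, 0 < c ∧ ∃ q₀ : ℕ, ∀ q : ℕ, q.Prime → q₀ ≤ q →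
      ∀ x : ℝ, (q : ℝ) ^ 2 ≤ x → x ≤ (q : ℝ) ^ B →
      (c * Real.log q ^ 2 ≤ ∫ u in x..(x * (q : ℝ) ^ (1 + ε)),
        (∑ a ∈ (Finset.range q).filter (fun a => a.Coprime q), (psi u q a - u / Nat.totient q) ^ 2) / u ^ 2) ∧
      ∃ u : ℝ, x ≤ u ∧ u ≤ x * (q : ℝ) ^ (1 + ε) ∧ ∃ a : ℕ, a < q ∧ a.Coprime q ∧
        c * Real.sqrt (u * Real.log q / q) ≤ |psi u q a - u / Nat.totient q|) ∧
    (∀ B ε δ : ℝ, 2 ≤ B → 0 < ε → 0 < δ → ∃ c : ℝ, 0 < c ∧ ∃ q₀ : ℕ,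
      ∀ (q : ℕ) [NeZero q], q.Prime → q₀ ≤ q → ∀ x : ℝ, (q : ℝ) ^ 2 ≤ x → x ≤ (q : ℝ) ^ B →
      ∃ S : Finset (DirichletCharacter ℂ q), (S.card : ℝ) ≤ δ * Nat.totient q ∧
        ∀ χ : DirichletCharacter ℂ q, χ.Even → χ ∉ S →
          (c * Real.log q ^ 2 ≤ ∫ v in x..(x * (q : ℝ) ^ (1 + ε)), ‖psiChar χ v‖ ^ 2 / v ^ 2) ∧
          ∃ v : ℝ, x ≤ v ∧ v ≤ x * (q : ℝ) ^ (1 + ε) ∧ c * Real.sqrt (v * Real.log q) ≤ ‖psiChar χ v‖) := by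
  have hV : Pool.Agent.D0H44.MW.S_V := Pool.Agent.D0H52.MW.sv
    (Pool.Agent.D0H44.MW.base Pool.Agent.D0H52.MW.pb Pool.Agent.D0H13.MW.phi Pool.Agent.D0H98.MW.t_TL
      Pool.Agent.D0H13.MW.dg Pool.Agent.D0H98.MW.cut Pool.Agent.D0H13.MW.win Pool.Agent.D0H15.MW.lb
      (Pool.Agent.D0H65.MW.rem Pool.Agent.D0H98.MW.t_TL))
  exact ⟨Pool.Agent.D0H44.MW.pt_one (Pool.Agent.D0H98.MW.one hV),
    Pool.Agent.D0H44.MW.pt_two (Pool.Agent.D0H52.MW.two hV)⟩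

end Pool.Agent.Results.MP_9cfc0a_nt.EveryPrimeModulus
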